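import Pool.Agent.W998.KG.Stm3

set_option autoImplicit false

namespace Pool.Agent.W733.KG.CLS

open Pool.Agent.W998.KG
open Pool.Agent.Results.MP_633d19_co.SmallDegree
open Pool.Agent.Results.MP_633d19_co.SmallDegree.MGraph

variable {V E : Type}

lemma state_congr {G : MGraph V E} {k l : ℕ} {y y' : ℕ → V} {f : ℕ → E} {α β : Fin k}
    {c : E → Option (Fin k)} (h : G.State l y f α β c) (hy : ∀ i < l, y' i = y i) :
    G.State l y' f α β c where
  pp := h.pp
  inj := by
    intro i hi j hj hij
    rw [hy i hi, hy j hj] at hij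
    exact h.inj i hi j hj hij
  ed := by
    intro i hi
    rw [hy i hi, hy _ (nx_lt hi)]
    exact h.ed i hi
  none_iff := h.none_iff
  ma := by
    intro i hi
    rw [hy i hi]
    exact h.ma i hi
  mb := by
    intro i hi
    rw [hy i hi]
    exact h.mb i hi
  ne := h.ne

lemma extend {G : MGraph V E} {k l n : ℕ} {y : ℕ → V} {f h : ℕ → E} {pr : ℕ → ℕ}
    {α β : Fin k} {c : E → Option (Fin k)} (hln : l ≤ n + 1) (ht : Tr G l n y f h pr α β c)
    {i : ℕ} (hi : i ≤ n) {e : E} {a : Fin k} (hca : c e = some a)
    (hm : ∃ j ≤ n, G.Miss c (y j) a) {z : V} (hz : G.ends e = s(y i, z))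
    (hne : ∀ j ≤ n, z ≠ y j) :
    Tr G l (n + 1) (Function.update y (n + 1) z) f (Function.update h n e)
      (Function.update pr n i) α β c := by
  have hu : ∀ j, j ≤ n → Function.update y (n + 1) z j = y j := fun j hj =>
    Function.update_of_ne (by omega) _ _
  have hz' : Function.update y (n + 1) z (n + 1) = z := Function.update_self _ _ _
  refine ⟨state_congr ht.st (fun j hj => hu j (by omega)), ?_, ?_, ?_, ?_⟩
  · intro p hp q hq hpq
    rcases Nat.lt_or_ge p (n + 1) with h1 | h1
    · rcases Nat.lt_or_ge q (n + 1) with h2 | h2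
      · rw [hu p (by omega), hu q (by omega)] at hpq
        exact ht.inj p (by omega) q (by omega) hpq
      · have h3 : q = n + 1 := by omega
        subst h3
        rw [hu p (by omega), hz'] at hpq
        exact absurd hpq.symm (hne p (by omega))
    · have h3 : p = n + 1 := by omega
      subst h3
      rcases Nat.lt_or_ge q (n + 1) with h2 | h2
      · rw [hu q (by omega), hz'] at hpq
        exact absurd hpq (hne q (by omega))
      · omega
  · intro p hp hlp
    rcases Nat.lt_or_ge p n with h1 | h1
    · rw [Function.update_of_ne (by omega)]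
      exact ht.le p h1 hlp
    · have h3 : p = n := by omega
      subst h3
      rw [Function.update_self]
      exact hi
  · intro p hp hlp
    rcases Nat.lt_or_ge p n with h1 | h1
    · have h2 := ht.le p h1 hlp
      rw [Function.update_of_ne (by omega : p ≠ n), Function.update_of_ne (by omega : p ≠ n),
        hu _ (by omega), hu _ (by omega)]
      exact ht.ed p h1 hlp
    · have h3 : p = n := by omega
      subst h3
      rw [Function.update_self, Function.update_self, hz', hu i hi]
      exact hz
  · intro p hp hlp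
    rcases Nat.lt_or_ge p n with h1 | h1
    · obtain ⟨b, hb, j, hj, hmj⟩ := ht.col p h1 hlp
      refine ⟨b, ?_, j, hj, ?_⟩
      · rw [Function.update_of_ne (by omega : p ≠ n)]
        exact hb
      · rw [hu j (by omega)]
        exact hmj
    · have h3 : p = n := by omega
      subst h3
      obtain ⟨j, hj, hmj⟩ := hm
      refine ⟨a, ?_, j, hj, ?_⟩
      · rw [Function.update_self]
        exact hca
      · rw [hu j hj]
        exact hmj

lemma grow [Finite V] {G : MGraph V E} {k l : ℕ} {f : ℕ → E} {α β : Fin k}
    {c : E → Option (Fin k)} (m : ℕ) :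
    ∀ (n : ℕ) (y : ℕ → V) (h : ℕ → E) (pr : ℕ → ℕ), Nat.card V ≤ n + m → l ≤ n + 1 →
      Tr G l n y f h pr α β c →
      ∃ (n' : ℕ) (y' : ℕ → V) (h' : ℕ → E) (pr' : ℕ → ℕ), l ≤ n' + 1 ∧ (∀ i < l, y' i = y i) ∧
        Tr G l n' y' f h' pr' α β c ∧ Clsd G n' y' c := by
  classical
  induction m with
  | zero =>
    intro n y h pr hcard hln ht
    exfalso
    have hinj : Function.Injective (fun i : Fin (n + 1) => y i) := by
      intro i j hij
      exact Fin.ext (ht.inj i (by omega) j (by omega) hij)
    have h1 := Nat.card_le_card_of_injective _ hinj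
    rw [Nat.card_eq_fintype_card, Fintype.card_fin] at h1
    omega
  | succ m ih =>
    intro n y h pr hcard hln ht
    by_cases hC : Clsd G n y c
    · exact ⟨n, y, h, pr, hln, fun _ _ => rfl, ht, hC⟩
    · unfold Clsd at hC
      push Not at hC
      obtain ⟨i, hi, e, a, hie, hca, hm, hne⟩ := hC
      obtain ⟨z, hz⟩ := Sym2.mem_iff_exists.mp hie
      have hne' : ∀ j ≤ n, z ≠ y j := by
        intro j hj hzj
        exact hne j hj (by rw [hz, hzj])
      obtain ⟨n', y', h', pr', h1, h2, h3, h4⟩ := ih (n + 1) _ _ _ (by omega) (by omega)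
        (extend hln ht hi hca hm hz hne')
      refine ⟨n', y', h', pr', h1, ?_, h3, h4⟩
      intro j hj
      rw [h2 j hj]
      exact Function.update_of_ne (by omega) _ _

theorem main : PartCLS := by
  intro V E _ _ G k l y f α β c hl hst
  refine grow (Nat.card V) (l - 1) y f (fun _ => 0) (by omega) (by omega) ?_
  refine ⟨hst, ?_, ?_, ?_, ?_⟩
  · intro i hi j hj hij
    exact hst.inj i (by omega) j (by omega) hij
  · intro i hi hli
    omega
  · intro i hi hli
    omega
  · intro i hi hli
    omega

end Pool.Agent.W733.KG.CLS
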